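import Pool.Agent.Q98.SPN.Stm

/-!
# Project SPN: DEC (decomposition into a small part and low rank parts)
-/

set_option autoImplicit false

open scoped Matrix.Norms.L2Operator Matrix
open Finset

namespace Pool.Agent.Q129.SPN

open Pool.Agent.Q98.SPN

/-- the enumeration of a finite set of columns -/
noncomputable def en {d : ℕ} (S : Finset (Fin d)) : Fin S.card → Fin d := fun j => (S.equivFin.symm j : Fin d)

theorem en_inj {d : ℕ} (S : Finset (Fin d)) : Function.Injective (en S) := by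
  intro a b h
  have h1 : S.equivFin.symm a = S.equivFin.symm b := Subtype.ext h
  exact S.equivFin.symm.injective h1

theorem en_mem {d : ℕ} (S : Finset (Fin d)) (j : Fin S.card) : en S j ∈ S :=
  (S.equivFin.symm j).2

theorem sum_en {d : ℕ} (S : Finset (Fin d)) (f : Fin d → ℂ) : ∑ j, f (en S j) = ∑ j ∈ S, f j := by
  rw [← Finset.sum_coe_sort S f]
  exact Equiv.sum_comp S.equivFin.symm (fun x : S => f x)

theorem sub_mul_sub {d : ℕ} (A B : Matrix (Fin d) (Fin d) ℂ) (S : Finset (Fin d)) :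
    A.submatrix id (en S) * (B.submatrix id (en S))ᴴ =
      Matrix.of (fun a b => ∑ j ∈ S, A a j * star (B b j)) := by
  ext a b
  rw [Matrix.mul_apply, Matrix.of_apply, ← sum_en S (fun j => A a j * star (B b j))]
  rfl

/-- the columns with eigenvalue at most `(2^k s)²` -/
noncomputable def TT {d : ℕ} (l : Fin d → ℝ) (s : ℝ) (k : ℕ) : Finset (Fin d) :=
  univ.filter fun j => l j ≤ (2 ^ k * s) ^ 2

theorem TT_mono {d : ℕ} (l : Fin d → ℝ) (s : ℝ) (hs : 0 < s) (k : ℕ) : TT l s k ⊆ TT l s (k + 1) := by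
  intro j hj
  rw [TT, mem_filter] at hj ⊢
  refine ⟨mem_univ _, hj.2.trans ?_⟩
  have h1 : (2 : ℝ) ^ k * s ≤ 2 ^ (k + 1) * s := by
    apply mul_le_mul_of_nonneg_right _ hs.le
    exact pow_le_pow_right₀ (by norm_num) (Nat.le_succ k)
  exact pow_le_pow_left₀ (by positivity) h1 2

theorem tele {M : Type} [AddCommGroup M] {d : ℕ} (l : Fin d → ℝ) (s : ℝ) (hs : 0 < s) (K : ℕ) (f : Fin d → M) :
    ∑ k ∈ range K, ∑ j ∈ TT l s (k + 1) \ TT l s k, f j = ∑ j ∈ TT l s K, f j - ∑ j ∈ TT l s 0, f j := by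
  rw [← Finset.sum_range_sub (fun k => ∑ j ∈ TT l s k, f j) K]
  apply Finset.sum_congr rfl
  intro k _
  rw [← Finset.sum_sdiff (TT_mono l s hs k)]
  exact (add_sub_cancel_right _ _).symm

theorem DEC_ok (h1 : S_SPEC) (h2 : S_COLS) : S_DEC := by
  intro d Y s K κ hs hκ hT
  obtain ⟨U, l, hU1, hU2, hl, hQ, hk⟩ := h1 d Y
  have hUd : Uᴴ * U = Matrix.diagonal (fun _ : Fin d => (((1 : ℝ) : ℝ) : ℂ)) := by
    rw [hU2]
    simp
  have hV : ∀ S : Finset (Fin d), ‖U.submatrix id (en S)‖ ≤ 1 := fun S =>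
    h2 d U (fun _ => 1) 1 zero_le_one hUd S.card (en S) (en_inj S) (fun j => by norm_num)
  have hW : ∀ (S : Finset (Fin d)) (b : ℝ), 0 ≤ b → (∀ j ∈ S, l j ≤ b ^ 2) →
      ‖(Y * U).submatrix id (en S)‖ ≤ b := fun S b hb hS =>
    h2 d (Y * U) l b hb hQ S.card (en S) (en_inj S) (fun j => hS _ (en_mem S j))
  have hall : TT l s K = univ := by
    ext j
    rw [TT, mem_filter]
    refine ⟨fun _ => mem_univ _, fun _ => ⟨mem_univ _, ?_⟩⟩
    have e1 : l j ^ κ ≤ tk κ Y := by
      rw [hk κ]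
      exact Finset.single_le_sum (f := fun j => l j ^ κ) (fun i _ => pow_nonneg (hl i) κ) (mem_univ j)
    have e2 : l j ^ κ < (4 ^ K * s ^ 2) ^ κ := lt_of_le_of_lt e1 hT
    have e3 : l j < 4 ^ K * s ^ 2 := lt_of_pow_lt_pow_left₀ κ (by positivity) e2
    have e4 : (4 : ℝ) ^ K * s ^ 2 = (2 ^ K * s) ^ 2 := by
      rw [mul_pow, ← pow_mul, mul_comm K 2, pow_mul]
      norm_num
    rw [← e4]
    exact e3.le
  refine ⟨fun k => (TT l s (k + 1) \ TT l s k).card,
    fun k => (Y * U).submatrix id (en (TT l s (k + 1) \ TT l s k)),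
    fun k => U.submatrix id (en (TT l s (k + 1) \ TT l s k)), ?_, ?_, ?_⟩
  · have e1 : Y - ∑ k ∈ range K, (Y * U).submatrix id (en (TT l s (k + 1) \ TT l s k)) *
        (U.submatrix id (en (TT l s (k + 1) \ TT l s k)))ᴴ =
        (Y * U).submatrix id (en (TT l s 0)) * (U.submatrix id (en (TT l s 0)))ᴴ := by
      rw [sub_mul_sub]
      rw [Finset.sum_congr rfl (fun k _ => sub_mul_sub (Y * U) U (TT l s (k + 1) \ TT l s k))]
      ext a b
      rw [Matrix.sub_apply, Matrix.sum_apply, Matrix.of_apply]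
      simp only [Matrix.of_apply]
      rw [tele l s hs K (fun j => (Y * U) a j * star (U b j)), hall]
      have e2 : Y a b = ∑ j, (Y * U) a j * star (U b j) := by
        have e3 : Y = (Y * U) * Uᴴ := by rw [Matrix.mul_assoc, hU1, Matrix.mul_one]
        conv_lhs => rw [e3]
        rw [Matrix.mul_apply]
        rfl
      rw [e2]
      abel
    rw [e1]
    refine (Matrix.l2_opNorm_mul _ _).trans ?_
    rw [Matrix.l2_opNorm_conjTranspose]
    have e5 := hW (TT l s 0) s hs.le (fun j hj => by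
      rw [TT, mem_filter] at hj
      simpa using hj.2)
    calc ‖(Y * U).submatrix id (en (TT l s 0))‖ * ‖U.submatrix id (en (TT l s 0))‖ ≤ s * 1 :=
          mul_le_mul e5 (hV _) (norm_nonneg _) hs.le
      _ = s := mul_one s
  · intro k
    refine ⟨hW _ _ (by positivity) ?_, hV _⟩
    intro j hj
    have := (mem_sdiff.1 hj).1
    rw [TT, mem_filter] at this
    exact this.2
  · have e1 : ∀ k ∈ range K, (((TT l s (k + 1) \ TT l s k).card : ℕ) : ℝ) * (4 ^ k * s ^ 2) ^ κ ≤
        ∑ j ∈ TT l s (k + 1) \ TT l s k, l j ^ κ := by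
      intro k _
      rw [← nsmul_eq_mul]
      apply Finset.card_nsmul_le_sum
      intro j hj
      have h3 := (mem_sdiff.1 hj).2
      rw [TT, mem_filter, not_and] at h3
      have h4 := not_le.1 (h3 (mem_univ _))
      have e4 : (4 : ℝ) ^ k * s ^ 2 = (2 ^ k * s) ^ 2 := by
        rw [mul_pow, ← pow_mul, mul_comm k 2, pow_mul]
        norm_num
      rw [e4]
      exact pow_le_pow_left₀ (by positivity) h4.le κ
    refine (Finset.sum_le_sum e1).trans ?_
    rw [tele l s hs K (fun j => l j ^ κ), hall, hk κ]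
    have : 0 ≤ ∑ j ∈ TT l s 0, l j ^ κ := Finset.sum_nonneg (fun j _ => pow_nonneg (hl j) κ)
    linarith

end Pool.Agent.Q129.SPN
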