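import Pool.Agent.Q98.SPN.Stm

/-!
# Project SPN: LEV (cover of one level)
-/

set_option autoImplicit false

open scoped Matrix.Norms.L2Operator Matrix
open Finset

namespace Pool.Agent.Q129.SPN

open Pool.Agent.Q98.SPN

open Pool.Agent.H172R2.GS (arrays)

theorem LEV_ok (h1 : S_LR) (h2 : S_CNT) : S_LEV := by
  intro ι _ _ d q k z s hz hz2 hs
  classical
  choose FF hFc hF using fun (d r : ℕ) => h1 d r k s hs
  refine ⟨((arrays ι q).filter (fun r => ∑ i, d i * r i ≤ q)).biUnion
    (fun r => Fintype.piFinset (fun i => FF (d i) (r i))), ?_, ?_⟩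
  · have e1 : (((arrays ι q).filter (fun r => ∑ i, d i * r i ≤ q)).biUnion
        (fun r => Fintype.piFinset (fun i => FF (d i) (r i)))).card ≤
        (arrays ι q).card * 5 ^ (2 * (4 * k + 5) * q) := by
      refine Finset.card_biUnion_le.trans ?_
      have e2 : ∀ r ∈ (arrays ι q).filter (fun r => ∑ i, d i * r i ≤ q),
          (Fintype.piFinset (fun i => FF (d i) (r i))).card ≤ 5 ^ (2 * (4 * k + 5) * q) := by
        intro r hr
        have hr2 := (mem_filter.1 hr).2
        rw [Fintype.card_piFinset]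
        calc ∏ i, (FF (d i) (r i)).card ≤ ∏ i, 5 ^ (2 * (d i * r i) * (4 * k + 5)) :=
              Finset.prod_le_prod' (fun i _ => hFc (d i) (r i))
          _ = 5 ^ (∑ i, 2 * (d i * r i) * (4 * k + 5)) := Finset.prod_pow_eq_pow_sum _ _ _
          _ ≤ 5 ^ (2 * (4 * k + 5) * q) := by
              apply Nat.pow_le_pow_right (by norm_num)
              calc ∑ i, 2 * (d i * r i) * (4 * k + 5) = 2 * (4 * k + 5) * ∑ i, d i * r i := by
                    rw [Finset.mul_sum]
                    apply Finset.sum_congr rfl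
                    intro i _
                    ring
                _ ≤ 2 * (4 * k + 5) * q := Nat.mul_le_mul_left _ hr2
      refine (Finset.sum_le_card_nsmul _ _ _ e2).trans ?_
      rw [smul_eq_mul]
      exact Nat.mul_le_mul_right _ (Finset.card_filter_le _ _)
    have e3 := h2 ι q z hz hz2
    have e4 : ((((arrays ι q).filter (fun r => ∑ i, d i * r i ≤ q)).biUnion
        (fun r => Fintype.piFinset (fun i => FF (d i) (r i)))).card : ℝ) ≤
        ((arrays ι q).card : ℝ) * 5 ^ (2 * (4 * k + 5) * q) := by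
      exact_mod_cast e1
    calc _ ≤ (((arrays ι q).card : ℝ) * 5 ^ (2 * (4 * k + 5) * q)) * z ^ q :=
          mul_le_mul_of_nonneg_right e4 (pow_nonneg hz.le q)
      _ = (((arrays ι q).card : ℝ) * z ^ q) * 5 ^ (2 * (4 * k + 5) * q) := by ring
      _ ≤ _ := mul_le_mul_of_nonneg_right e3 (by positivity)
  · intro r W V hr1 hr2 hW hV
    choose Z hZ1 hZ2 using fun i => hF (d i) (r i) (W i) (V i) (hW i) (hV i)
    refine ⟨Z, ?_, hZ2⟩
    rw [mem_biUnion]
    refine ⟨r, ?_, ?_⟩
    · rw [mem_filter, arrays, mem_filter, Fintype.mem_piFinset]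
      refine ⟨⟨fun i => ?_, hr1⟩, hr2⟩
      rw [mem_range]
      have : r i ≤ ∑ i, r i := Finset.single_le_sum (fun i _ => Nat.zero_le (r i)) (mem_univ i)
      omega
    · rw [Fintype.mem_piFinset]
      exact hZ1

end Pool.Agent.Q129.SPN
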